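import Pool.Agent.H547_h.General
import Pool.Agent.H547_h.CountS
import Pool.Agent.H916T.Defs

/-!
# The Tate conjecture for motives of Fermat varieties of arbitrary degrees, up to a bounded factor

Let `M` and `N` be finite direct sums of twisted tensor products of primitive motives (in the middle
degree) of Fermat varieties `x_0 ^ d + ... + x_(n+1) ^ d = 0`, of arbitrary degrees `d` dividing `m` and
arbitrary even dimensions `n`, over a number field: for example all the motives `h ^ a (X) (w)` and
`h (X) (w)` for products `X` of such Fermat varieties. Let `r` be the number of the odd prime divisors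
of `m`, plus one if `4` divides `m`.

Theorem. Over all sufficiently large number fields `F` the dimension of the space of the morphisms from
`M` to `N` is at least `2 ^ (-(2 ^ (r - 1) - 1))` times the dimension of the space of all the
homomorphisms of representations of the Galois group of `F` from the `ℓ`-adic realization of `M` to that
of `N` (at least one half of it for `r = 2`). There is no condition on `m`, on the number of the
factors, and on the dimensions: the constant depends only on `r`. In particular there is a nonzero
morphism from `M` to `N` if there is a nonzero homomorphism of the realizations.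

*Realizations.* The `ℓ`-adic realization of the primitive motive of the Fermat variety of degree `d` and
even dimension `n = 2 h` has (after extension of the coefficients to an algebraic closure of `ℚ_ℓ`) a
basis with one vector for each tuple of `n + 2` nonzero residues modulo `d` with sum zero (Weil, Katz,
Shioda); we write these residues as multiples of `m / d` modulo `m`, that is as residues `a` modulo `m`
with `d a = 0`. The Galois group of the field of the `m`-th roots of unity acts on the line of this
vector by the Jacobi sum character of Weil. So the homomorphisms from `M` to `N` which are compatible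
with the action of an open subgroup are spanned by those which map one basis vector `b` of `M` to one
basis vector `c` of `N` and the other ones to zero, such that `M` and `N` have the same weight and the
residues of `c` together with the negatives of the residues of `b` form a Tate character for each prime
number `p` which does not divide `m`: by Stickelberger's theorem this means that the Frobenius elements
at all primes of good reduction act on the line of this homomorphism by roots of unity (`homTate`).

*Algebraic classes.* The homomorphisms for which these residues form a member of the closure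
(`Generated`) of the characters of Fermat surfaces and of the standard characters come from morphisms of
motives: by Lefschetz for surfaces, by Aoki and Shioda for the standard characters, and by the inductive
structure of Fermat varieties of Shioda and Katsura for the closure (`homKnown`).

*Proof.* By Dirichlet's theorem on primes in arithmetic progressions the characters above are the Hodge
characters. Modulo the known ones these form a group, the torsion of a quotient of the universal odd
distribution. We show that it has at most `2 ^ (2 ^ (r - 1) - 1)` elements (Kubert has determined the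
torsion of the universal odd distribution; the proof here is by explicit generators). The number of the
homomorphisms above with a given value in this group is the autocorrelation function of a distribution
on an abelian group, since the number of the residues in each factor is even and the residues may be
replaced by their negatives; so it is largest at the origin, which is the number of the known ones.
-/

set_option autoImplicit false

namespace Pool.Agent.Results.MP_3703a7_ag.FermatHomProportion

open Finset Pool.Agent.H916R2 Pool.Agent.H547_pp Pool.Agent.H547_h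

section defs

/-- A twisted tensor product of primitive motives of Fermat varieties: the number `k` of the factors;
for each factor the degree `d j`, a divisor of `m`, and half of the dimension `h j`; and the twist. -/
structure FermatMotive (m : ℕ) where
  k : ℕ
  d : Fin k → ℕ
  h : Fin k → ℕ
  twist : ℤ
  dvd : ∀ j, d j ∣ m

variable {m : ℕ}

/-- The weight: the sum of the dimensions minus twice the twist. -/
def FermatMotive.weight (X : FermatMotive m) : ℤ := 2 * (∑ j, (X.h j : ℤ)) - 2 * X.twist

/-- Tuples of residues modulo `m`, one with `2 * h j + 2` entries for each factor. -/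
abbrev Tuple (X : FermatMotive m) : Type := ∀ j : Fin X.k, Fin (2 * X.h j + 2) → ZMod m

/-- The tuples are characters of the Fermat varieties: the residues are not zero, they are killed by
the degree, and their sum is zero. -/
def IsCharacter (X : FermatMotive m) (b : Tuple X) : Prop :=
  ∀ j, (∀ l, b j l ≠ 0 ∧ (X.d j : ZMod m) * b j l = 0) ∧ ∑ l, b j l = 0

/-- All the residues in `b`. -/
def residues {X : FermatMotive m} (b : Tuple X) : Multiset (ZMod m) :=
  ∑ j, (univ : Finset (Fin (2 * X.h j + 2))).val.map (b j)

/-- The residues of `c` together with the negatives of the residues of `b`. -/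
def homResidues {X Y : FermatMotive m} (b : Tuple X) (c : Tuple Y) : Multiset (ZMod m) :=
  (residues b).map Neg.neg + residues c

/-- The basis of the homomorphisms from the realization of `X` to that of `Y` which are compatible with
the action of an open subgroup of the Galois group. -/
def homTate (X Y : FermatMotive m) : Set (Tuple X × Tuple Y) :=
  {q | X.weight = Y.weight ∧ IsCharacter X q.1 ∧ IsCharacter Y q.2 ∧
    ∀ p : ℕ, p.Prime → p.Coprime m → H916T.IsTate p m (homResidues q.1 q.2)}

/-- The elements of this basis which are known to come from morphisms of motives: there are no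
residues, or they form a member of the closure of the Hodge characters of surfaces and of the standard
characters. -/
def homKnown (X Y : FermatMotive m) : Set (Tuple X × Tuple Y) :=
  {q | q ∈ homTate X Y ∧
    (homResidues q.1 q.2 = 0 ∨ Generated m (SurfaceCharacter m) (homResidues q.1 q.2))}

/-- The number of the odd prime divisors of `m`, plus one if `4` divides `m`. -/
def rank (m : ℕ) : ℕ := (m.primeFactors.filter fun q => q ≠ 2 ∨ 4 ∣ m).card

end defs

section proof

/-- A character is a Tate character for all primes not dividing `m` if and only if it is a Hodge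
character. -/
lemma tate_all_iff {m : ℕ} (hm : 0 < m) (s : Multiset (ZMod m)) :
    (∀ p : ℕ, p.Prime → p.Coprime m → H916T.IsTate p m s) ↔ IsHodge m s := by
  have hz : NeZero m := ⟨hm.ne'⟩
  constructor
  · intro h
    obtain ⟨p, hp, _, hp1⟩ := Nat.exists_prime_gt_modEq_one (k := m) 0 hm.ne'
    have h1 : (p : ZMod m) = 1 := by
      have := (ZMod.natCast_eq_natCast_iff p 1 m).2 hp1
      simpa using this
    have hc : p.Coprime m := by
      have h2 := hp1.gcd_eq
      rw [Nat.gcd_one_left] at h2
      exact h2
    obtain ⟨h2, h3, h4, h5⟩ := h p hp hc
    refine ⟨h2, h3, h4, fun t => ?_⟩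
    have h6 := h5 t
    rw [h1, orderOf_one] at h6
    simpa using h6
  · rintro ⟨h2, h3, h4, h5⟩ p _ hc
    refine ⟨h2, h3, h4, fun t => ?_⟩
    have h6 : ∀ j ∈ Finset.range (orderOf (p : ZMod m)),
        2 * (s.map fun a => ((p : ZMod m) ^ j * ((t : ZMod m) * a)).val).sum =
          m * Multiset.card s := by
      intro j _
      have h7 := h5 ((ZMod.unitOfCoprime p hc) ^ j * t)
      rw [← h7]
      congr 3
      funext a
      rw [Units.val_mul, Units.val_pow_eq_pow_val, ZMod.coe_unitOfCoprime, mul_assoc]
    rw [mul_sum, sum_congr rfl h6, sum_const, card_range, smul_eq_mul]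

variable {m : ℕ} {X Y : FermatMotive m}

/-- the degrees of the factors of both motives -/
def dd (X Y : FermatMotive m) : Fin X.k ⊕ Fin Y.k → ℕ := Sum.elim X.d Y.d

/-- the dimensions of the factors of both motives -/
def hh (X Y : FermatMotive m) : Fin X.k ⊕ Fin Y.k → ℕ := Sum.elim X.h Y.h

/-- the negatives of `b`, and `c` -/
def comb (q : Tuple X × Tuple Y) : Tup m (hh X Y)
  | Sum.inl j => fun l => - q.1 j l
  | Sum.inr j => q.2 j

lemma comb_inj : Function.Injective (comb : Tuple X × Tuple Y → Tup m (hh X Y)) := by
  intro q q' h
  refine Prod.ext ?_ ?_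
  · funext j l
    have h1 := congrFun (congrFun h (Sum.inl j)) l
    exact neg_injective h1
  · funext j l
    exact congrFun (congrFun h (Sum.inr j)) l

lemma comb_surj : Function.Surjective (comb : Tuple X × Tuple Y → Tup m (hh X Y)) := by
  intro t
  refine ⟨(fun j l => - t (Sum.inl j) l, fun j l => t (Sum.inr j) l), ?_⟩
  funext j l
  rcases j with j | j
  · exact neg_neg (t (Sum.inl j) l)
  · rfl

lemma map_residues_sum {M : Type*} [AddCommMonoid M] (b : Tuple X) (G : ZMod m → M) :
    ((residues b).map G).sum = ∑ j, ∑ l, G (b j l) := by
  unfold residues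
  have h1 : ∀ s : Finset (Fin X.k),
      ((∑ j ∈ s, (univ : Finset (Fin (2 * X.h j + 2))).val.map (b j)).map G).sum =
        ∑ j ∈ s, ∑ l, G (b j l) := by
    intro s
    induction s using Finset.induction_on with
    | empty => simp
    | insert j s hj ih =>
      rw [sum_insert hj, sum_insert hj, Multiset.map_add, Multiset.sum_add, ih, Multiset.map_map]
      rfl
  exact h1 univ

lemma map_hom_sum {M : Type*} [AddCommMonoid M] (q : Tuple X × Tuple Y) (G : ZMod m → M) :
    ((homResidues q.1 q.2).map G).sum = ∑ j, ∑ l, G (comb q j l) := by
  unfold homResidues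
  rw [Multiset.map_add, Multiset.sum_add, Multiset.map_map, map_residues_sum, map_residues_sum,
    Fintype.sum_sum_type]
  rfl

lemma mem_residues {b : Tuple X} {a : ZMod m} (ha : a ∈ residues b) : ∃ j l, b j l = a := by
  unfold residues at ha
  rw [Multiset.mem_sum] at ha
  obtain ⟨j, _, hj⟩ := ha
  rw [Multiset.mem_map] at hj
  obtain ⟨l, _, hl⟩ := hj
  exact ⟨j, l, hl⟩

lemma mem_homTate_iff [NeZero m] (hw : X.weight = Y.weight) (q : Tuple X × Tuple Y) :
    q ∈ homTate X Y ↔
      (∀ j l, comb q j l ≠ 0 ∧ (dd X Y j : ZMod m) * comb q j l = 0) ∧
        (∀ j, ∑ l, comb q j l = 0) ∧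
          ∑ j, ∑ l, (fun a (t : (ZMod m)ˣ) => saw ((t : ZMod m) * a)) (comb q j l) = 0 := by
  have hm : 0 < m := Nat.pos_of_ne_zero (NeZero.ne m)
  have hadm : (IsCharacter X q.1 ∧ IsCharacter Y q.2) ↔
      (∀ j l, comb q j l ≠ 0 ∧ (dd X Y j : ZMod m) * comb q j l = 0) ∧
        (∀ j, ∑ l, comb q j l = 0) := by
    constructor
    · rintro ⟨h1, h2⟩
      constructor
      · rintro (j | j) l
        · refine ⟨neg_ne_zero.2 ((h1 j).1 l).1, ?_⟩
          have h3 := ((h1 j).1 l).2
          change (X.d j : ZMod m) * (- q.1 j l) = 0
          rw [mul_neg, h3, neg_zero]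
        · exact (h2 j).1 l
      · rintro (j | j)
        · have h3 := (h1 j).2
          change ∑ l, (- q.1 j l) = 0
          rw [sum_neg_distrib, h3, neg_zero]
        · exact (h2 j).2
    · rintro ⟨h1, h2⟩
      constructor
      · intro j
        constructor
        · intro l
          have h3 := h1 (Sum.inl j) l
          refine ⟨neg_ne_zero.1 h3.1, ?_⟩
          have h4 : (X.d j : ZMod m) * (- q.1 j l) = 0 := h3.2
          rwa [mul_neg, neg_eq_zero] at h4
        · have h3 : ∑ l, (- q.1 j l) = 0 := h2 (Sum.inl j)
          rwa [sum_neg_distrib, neg_eq_zero] at h3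
      · intro j
        exact ⟨fun l => h1 (Sum.inr j) l, h2 (Sum.inr j)⟩
  have hW : ∀ t : (ZMod m)ˣ,
      ((homResidues q.1 q.2).map fun a => saw ((t : ZMod m) * a)).sum =
        (∑ j, ∑ l, (fun a (t : (ZMod m)ˣ) => saw ((t : ZMod m) * a)) (comb q j l)) t := by
    intro t
    rw [map_hom_sum, Finset.sum_apply]
    refine sum_congr rfl fun j _ => ?_
    rw [Finset.sum_apply]
  constructor
  · rintro ⟨_, h1, h2, h3⟩
    have h4 := hadm.1 ⟨h1, h2⟩
    refine ⟨h4.1, h4.2, ?_⟩
    funext t
    rw [← hW, ((tate_all_iff hm _).1 h3).saw_sum t]
    rfl
  · rintro ⟨h1, h2, h3⟩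
    have h4 := hadm.2 ⟨h1, h2⟩
    refine ⟨hw, h4.1, h4.2, (tate_all_iff hm _).2 (isHodge_of_saw ?_ ?_ ?_)⟩
    · intro h0
      unfold homResidues at h0
      rw [Multiset.mem_add, Multiset.mem_map] at h0
      rcases h0 with ⟨a, ha, ha0⟩ | h0
      · obtain ⟨j, l, hl⟩ := mem_residues ha
        exact ((h4.1 j).1 l).1 (by rw [hl]; exact neg_eq_zero.1 ha0)
      · obtain ⟨j, l, hl⟩ := mem_residues h0
        exact ((h4.2 j).1 l).1 hl
    · have h5 := map_hom_sum q fun _ => (1 : ℕ)
      have h6 : Multiset.card (homResidues q.1 q.2) =
          ∑ j : Fin X.k ⊕ Fin Y.k, ∑ _l : Fin (2 * hh X Y j + 2), 1 := by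
        rw [← h5]; simp
      rw [h6]
      refine Finset.even_sum _ fun j _ => ?_
      rw [sum_const, card_univ, Fintype.card_fin, smul_eq_mul, mul_one]
      exact ⟨hh X Y j + 1, by ring⟩
    · intro t
      rw [hW, h3]
      rfl

/-- The inequality for one pair of motives. -/
lemma pair_le (hm : 0 < m) (X Y : FermatMotive m) :
    (homTate X Y).ncard ≤ 2 ^ (2 ^ (rank m - 1) - 1) * (homKnown X Y).ncard := by
  classical
  have hz : NeZero m := ⟨hm.ne'⟩
  by_cases hw : X.weight = Y.weight
  swap
  · have h1 : homTate X Y = ∅ := by
      ext q
      simp only [homTate, Set.mem_ofPred_eq, Set.mem_empty_iff_false, iff_false]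
      exact fun h => hw h.1
    rw [h1, Set.ncard_empty]
    exact Nat.zero_le _
  obtain ⟨hTf, hTc⟩ := tors_main (cQ m (SurfaceCharacter m)) cQ_oddDist
  have h1 : (homTate X Y).ncard = (comb '' homTate X Y).ncard :=
    (Set.ncard_image_of_injective _ comb_inj).symm
  have h2 : (homKnown X Y).ncard = (comb '' homKnown X Y).ncard :=
    (Set.ncard_image_of_injective _ comb_inj).symm
  rw [h1, h2]
  refine le_trans (count_tuples (h := hh X Y) (cQ m (SurfaceCharacter m)) cQ_oddDist.neg
    (fun a (t : (ZMod m)ˣ) => saw ((t : ZMod m) * a))
    (fun a => by
      funext t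
      simp only [mul_neg, saw_neg, Pi.neg_apply])
    (fun j a => a ≠ 0 ∧ (dd X Y j : ZMod m) * a = 0)
    (fun j a ha => ⟨neg_ne_zero.2 ha.1, by rw [mul_neg, ha.2, neg_zero]⟩)
    (TV (cQ m (SurfaceCharacter m))) hTf _ _ ?_ ?_ ?_) (Nat.mul_le_mul_right _ hTc)
  · rintro _ ⟨q, hq, rfl⟩
    refine ⟨_, ((tate_all_iff hm _).1 hq.2.2.2).rel, ?_⟩
    rw [sum_count, map_hom_sum]
  · intro t
    obtain ⟨q, rfl⟩ := comb_surj t
    rw [comb_inj.mem_set_image, mem_homTate_iff hw]
  · rintro _ ⟨q, hq, rfl⟩ hq2
    refine ⟨q, ⟨hq, ?_⟩, rfl⟩
    by_cases hne : homResidues q.1 q.2 = 0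
    · exact Or.inl hne
    · right
      have hbase : ∀ s, SurfaceCharacter m s → (0 : ZMod m) ∉ s ∧ Even (Multiset.card s) :=
        fun s h => ⟨h.1.1, h.1.2.1⟩
      have hbn : ∀ s, SurfaceCharacter m s → SurfaceCharacter m (s.map Neg.neg) := by
        rintro s ⟨h1, h2⟩
        exact ⟨h1.neg, by rw [Multiset.card_map]; exact h2⟩
      have hH := (tate_all_iff hm _).1 hq.2.2.2
      refine generated_of_mem_LL hbase hbn hH.1 hH.2.1 hne ?_
      rw [← map_hom_sum, cQ_sum, QuotientAddGroup.eq_zero_iff] at hq2
      exact hq2

end proof

/-- **The Tate conjecture for the homomorphisms between motives of Fermat varieties of arbitrary degrees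
and even dimensions over number fields, up to a factor which depends only on the number of the prime
divisors of the degree.** -/
theorem result (m : ℕ) (hm : 0 < m) (α β : Type) [Fintype α] [Fintype β]
    (M : α → FermatMotive m) (N : β → FermatMotive m) :
    ∑ a, ∑ b, (homTate (M a) (N b)).ncard ≤
      2 ^ (2 ^ (rank m - 1) - 1) * ∑ a, ∑ b, (homKnown (M a) (N b)).ncard := by
  rw [mul_sum]
  refine sum_le_sum fun a _ => ?_
  rw [mul_sum]
  exact sum_le_sum fun b _ => pair_le hm (M a) (N b)

end Pool.Agent.Results.MP_3703a7_ag.FermatHomProportion
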