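import Pool.Agent.U724C.TateBridge

/-!
# MP_3703a7_ag: the Tate conjecture for endomorphisms of `h(X)` can be tested on one or two classes

Let `H` be a Weil cohomology, with coefficients in `K`, of varieties over an algebraically closed
field, `X` a variety, and let the group `Γ` act on `H(X)`, linearly and respecting the degrees; for
example `Γ` is the Galois group of a field of definition of `X`.  A Tate class is a linear map `τ` on
`H(X)` which respects the degrees and commutes with `Γ` (Kunneth, Poincare duality), an invariant
correspondence is a linear combination, with coefficients in `K`, of algebraic cycles on `X × X` of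
codimension `dim X` which commutes with `Γ`.  The Tate conjecture for `X × X` in codimension `dim X`
is the surjectivity of `End(h(X)) ⊗ K → End_Γ(H(X))`: every Tate class is a correspondence.  For all
`X` together this is the Tate conjecture.

Assume that `Γ` acts semisimply on every `H^i(X)`.  We show that the following are equivalent:

(1) the Tate conjecture for `X × X` in codimension `dim X`;

(2) for every Tate class `τ` and all `x ∈ H^i(X)`, `y ∈ H^j(X)` there is an invariant correspondence
`u`, which may depend on `x` and `y`, with `u x = τ x` and `u y = τ y`;

(3) the subspaces of `H(X)²` stable under the invariant correspondences are stable under the Tate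
classes;

(4) the invariant correspondences act semisimply on `H(X)`, and the linear maps which commute with
them are on every `H^i(X)` linear combinations of elements of `Γ`;

and, if `K` is algebraically closed, also

(5) for every Tate class `τ` and every `x ∈ H(X)` there is an invariant correspondence `u`, which may
depend on `x`, with `u x = τ x`;

(6) the subspaces of `H(X)` stable under the invariant correspondences are stable under the Tate
classes.

If the invariant correspondences act semisimply on `H(X)` (for example if homological and numerical
equivalence agree on `X × X`), then, without assumptions on `Γ`, the corresponding criteria hold for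
every Tate class separately.  The proof is in the modules `Pool.Agent.U724C`.
-/

set_option autoImplicit false

universe u v w

namespace Pool.Agent.Results.MP_3703a7_ag.PairsOfClasses

open Pool.Agent.H914 Pool.Agent.U724C Pool.Agent.U724C.CohSys

/-- **Main theorem.** -/
theorem result {k : Type u} [Field k] {𝒱 : VarClass k} {ops : CycleOps 𝒱}
    (W : WeilCohomology.{u, v} ops) (X : 𝒱.Obj) (Γ : Type w) [Group Γ]
    (A : (cohSys W X).GalAction Γ) :
    (A.Semisimple →
      List.TFAE [A.TateConj, ∀ τ, A.IsTate τ → A.AlgOnPairs τ,
        ∀ τ, A.IsTate τ → A.FixesPairSpaces τ, A.Bicommutant] ∧
      (IsAlgClosed W.K → List.TFAE [A.TateConj, ∀ τ, A.IsTate τ → A.AlgOnPoints τ,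
        ∀ τ, A.IsTate τ → A.FixesSpaces τ])) ∧
    (A.AlgSemisimple → ∀ τ, A.IsTate τ →
      List.TFAE [A.IsAlg τ, A.AlgOnPairs τ, A.FixesPairSpaces τ,
        ∀ f, A.InCommutant f → Comm τ f] ∧
      (IsAlgClosed W.K → List.TFAE [A.IsAlg τ, A.AlgOnPoints τ, A.FixesSpaces τ])) :=
  tate_main A

end Pool.Agent.Results.MP_3703a7_ag.PairsOfClasses
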